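import Pool.Agent.helper92.FV.Defs2

/-! # MP_51fbee_al, module CH : chains -/

namespace FV

universe u

variable {k : Type u} [Field k]

lemma CH_adjData {M N : DGA k} (f : DGA.Hom M N) {i j : ℤ} {z : M.A} (h : DGA.AdjData M i j z) :
    DGA.AdjData N i j (f.f z) where
  i_nonneg := h.i_nonneg
  j_pos := h.j_pos
  z_mem := f.f_mem h.z_mem
  dz := by rw [← f.f_d, h.dz, map_zero]

theorem Chain.adj {i j : ℤ} (F : DGA.AdjFunctor k i j) {M N : DGA k} {f : DGA.Hom M N}
    {L : List (ℤ × ℤ)} (hL : ∀ v ∈ L, 0 ≤ v.1 ∧ 1 ≤ v.2) (h : DGA.Chain M N f L)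
    (z : M.A) (hz : DGA.AdjData M i j z) (hz' : DGA.AdjData N i j (f.f z)) :
    DGA.Chain (F.obj M z hz) (F.obj N (f.f z) hz') (F.map f z hz hz') L := by
  induction h with
  | nil =>
    have h1 := F.map_id M z hz
    have h2 : DGA.Chain (F.obj M z hz) (F.obj M z hz) (F.map (DGA.Hom.id M) z hz hz) [] := by
      rw [h1]
      exact DGA.Chain.nil
    exact h2
  | @cons N N' f L g i' j' v hc hs ih =>
    have hz'' : DGA.AdjData N i j (f.f z) := CH_adjData f hz
    have ih1 := ih (fun w hw => hL w (List.mem_cons_of_mem _ hw)) hz''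
    have h1 : (F.map g (f.f z) hz'' hz').comp (F.map f z hz hz'') = F.map (g.comp f) z hz hz' :=
      F.map_comp f g z hz hz'' hz'
    obtain ⟨h2, h3⟩ := hL (i', j') List.mem_cons_self
    rw [← h1]
    exact DGA.Chain.cons _ i' j' _ ih1 (F.map_step g (f.f z) hz'' hz' i' j' v h2 h3 hs)

theorem XChain.adj {i j : ℤ} (F : DGA.AdjFunctor k i j) {M N : DGA k} {f : DGA.Hom M N}
    {ys : List M.A} (h : DGA.XChain M N f ys)
    (z : M.A) (hz : DGA.AdjData M i j z) (hz' : DGA.AdjData N i j (f.f z)) :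
    DGA.XChain (F.obj M z hz) (F.obj N (f.f z) hz') (F.map f z hz hz')
      (ys.map (fun y => (F.inc M z hz).f y)) := by
  induction h with
  | nil =>
    have h1 := F.map_id M z hz
    have h2 : DGA.XChain (F.obj M z hz) (F.obj M z hz) (F.map (DGA.Hom.id M) z hz hz) [] := by
      rw [h1]
      exact DGA.XChain.nil
    exact h2
  | @cons N N' f xs g x hx hc hs ih =>
    have hz'' : DGA.AdjData N i j (f.f z) := CH_adjData f hz
    have ih1 := ih hz''
    have h1 : (F.map g (f.f z) hz'' hz').comp (F.map f z hz hz'') = F.map (g.comp f) z hz hz' :=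
      F.map_comp f g z hz hz'' hz'
    rw [← h1, List.map_cons]
    refine DGA.XChain.cons _ _ ((F.inc M z hz).f_mem hx) ih1 ?_
    rw [F.map_inc f z hz hz'' x]
    exact F.map_step g (f.f z) hz'' hz' 0 1 (f.f x) le_rfl le_rfl hs

theorem Chain.trans {M N P : DGA k} {f : DGA.Hom M N} {g : DGA.Hom N P} {L L' : List (ℤ × ℤ)}
    (h : DGA.Chain M N f L) (h' : DGA.Chain N P g L') : DGA.Chain M P (g.comp f) (L' ++ L) := by
  induction h' with
  | nil => exact h
  | cons g' i j v _ hs ih => exact DGA.Chain.cons g' i j v ih hs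

theorem XChain.chain {M N : DGA k} {f : DGA.Hom M N} {ys : List M.A} (h : DGA.XChain M N f ys) :
    DGA.Chain M N f (List.replicate ys.length ((0 : ℤ), (1 : ℤ))) := by
  induction h with
  | nil => exact DGA.Chain.nil
  | cons g x _ _ hs ih =>
    rw [List.length_cons, List.replicate_succ]
    exact DGA.Chain.cons g 0 1 _ ih hs

end FV
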