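import Pool.Agent.helper19.FV.SF
import Pool.Agent.helper45.FV.LC
import Pool.Agent.helper97.FV.BX

/-! # Project FV, module FA: finiteness of families -/

namespace Pool.Agent.helper76.FV

open Finset

/-- `S` is covered by finitely many pure sub-families of `H`. -/
def FA_Cov {k : ℕ} (H : Fam k) (S : Set (Fin k → ℚ)) : Prop :=
  ∃ Ls : List (Fam k), (∀ H' ∈ Ls, H'.Pure ∧ ∀ x, H'.Mem x → H.Mem x) ∧
    ∀ x ∈ S, Tate x → ∃ H' ∈ Ls, H'.Mem x

theorem FA_cov_list {k : ℕ} (H : Fam k) {α : Type*} (l : List α) (S : α → Set (Fin k → ℚ))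
    (h : ∀ a ∈ l, FA_Cov H (S a)) : FA_Cov H {x | ∃ a ∈ l, x ∈ S a} := by
  induction l with
  | nil => exact ⟨[], by simp, by simp⟩
  | cons a l ih =>
    obtain ⟨L1, h1, h2⟩ := h a (by simp)
    obtain ⟨L2, h3, h4⟩ := ih (fun b hb => h b (by simp [hb]))
    refine ⟨L1 ++ L2, ?_, ?_⟩
    · intro H' hH'
      rcases List.mem_append.1 hH' with h | h
      · exact h1 _ h
      · exact h3 _ h
    · rintro x ⟨b, hb, hx⟩ hT
      rcases List.mem_cons.1 hb with rfl | hb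
      · obtain ⟨H', hH', hm⟩ := h2 x hx hT
        exact ⟨H', List.mem_append.2 (Or.inl hH'), hm⟩
      · obtain ⟨H', hH', hm⟩ := h4 x ⟨b, hb, hx⟩ hT
        exact ⟨H', List.mem_append.2 (Or.inr hH'), hm⟩

theorem FA_cov_mono {k : ℕ} {H : Fam k} {S T : Set (Fin k → ℚ)} (h : FA_Cov H T)
    (hST : ∀ x ∈ S, Tate x → x ∈ T) : FA_Cov H S := by
  obtain ⟨L, h1, h2⟩ := h
  exact ⟨L, h1, fun x hx hT => h2 x (hST x hx hT) hT⟩

theorem FA_cov_sub {k : ℕ} {H H' : Fam k} {S : Set (Fin k → ℚ)} (h : FA_Cov H' S)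
    (hH : ∀ x, H'.Mem x → H.Mem x) : FA_Cov H S := by
  obtain ⟨L, h1, h2⟩ := h
  exact ⟨L, fun H'' h'' => ⟨(h1 _ h'').1, fun x hx => hH x ((h1 _ h'').2 x hx)⟩, h2⟩

/-- If `den x` divides `N` then `N x` is an integer. -/
theorem FA_int_of_dvd (x : ℚ) (N : ℤ) (h : (x.den : ℤ) ∣ N) : ∃ n : ℤ, (N : ℚ) * x = n := by
  obtain ⟨c, rfl⟩ := h
  refine ⟨c * x.num, ?_⟩
  push_cast
  have h1 : (x.den : ℚ) * x = x.num := Rat.den_mul_eq_num x
  calc (x.den : ℚ) * c * x = c * ((x.den : ℚ) * x) := by ring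
    _ = c * x.num := by rw [h1]

theorem FA_fract_congr {a b : ℚ} (h : ∃ n : ℤ, a = b + n) : Int.fract a = Int.fract b := by
  obtain ⟨n, rfl⟩ := h
  exact Int.fract_add_intCast b n

/-- If `t` is coprime to the denominator of `x` and `x` is not an integer, then neither is `t x`. -/
theorem FA_fract_ne {x : ℚ} (hx : Int.fract x ≠ 0) {t : ℤ} (ht : IsCoprime t (x.den : ℤ)) :
    Int.fract ((t : ℚ) * x) ≠ 0 := by
  intro h
  apply hx
  obtain ⟨n, hn⟩ : ∃ n : ℤ, (t : ℚ) * x = n :=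
    ⟨⌊(t : ℚ) * x⌋, by have := Int.floor_add_fract ((t : ℚ) * x); rw [h, add_zero] at this; exact this.symm⟩
  obtain ⟨a, b, hab⟩ := ht
  have h1 : x = a * n + b * x.num := by
    have h2 : (a : ℚ) * t + b * x.den = 1 := by exact_mod_cast hab
    have h3 : (x.den : ℚ) * x = x.num := Rat.den_mul_eq_num x
    calc x = (a * t + b * x.den) * x := by rw [h2, one_mul]
      _ = a * (t * x) + b * (x.den * x) := by ring
      _ = a * n + b * x.num := by rw [hn, h3]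
  have h4 : x = ((a * n + b * x.num : ℤ) : ℚ) := by push_cast; exact h1
  rw [h4]
  exact Int.fract_intCast _

/-- One step: if `H` is not pure, then outside finitely many proper sub-families there is
no Tate point. -/
theorem FA_step {k : ℕ} (H : Fam k) (hH : ¬ H.Pure) :
    ∃ C : ℕ, ∀ x, H.Mem x → Tate x → ∃ u : Fin H.d → ℚ,
      (∀ i, ∃ n : ℤ, x i = ∑ j, (H.A i j : ℚ) * u j + H.b i + n) ∧
      ∃ γ : Fin H.d → ℤ, γ ≠ 0 ∧ (∀ j, |γ j| ≤ C) ∧ (∑ j, (γ j : ℚ) * u j).den ≤ C := by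
  unfold Fam.Pure at hH
  push Not at hH
  obtain ⟨x, hxm, hx0, hxT⟩ := hH
  obtain ⟨u, hu⟩ := hxm
  -- the bad multiplier
  obtain ⟨t₀, ht₀, hsum⟩ : ∃ t : ℤ, (∀ i, IsCoprime t ((x i).den : ℤ)) ∧
      ∑ i, Int.fract ((t : ℚ) * x i) ≠ (k : ℚ) / 2 := by
    by_contra hcon
    push Not at hcon
    exact hxT ⟨hx0, hcon⟩
  let Q₀ : ℕ := ∏ i, (x i).den
  let Q : ℕ := Q₀ * (∏ i, (H.b i).den)
  have hQ₀ : 0 < Q₀ := Finset.prod_pos fun i _ => (x i).den_pos
  have hQ : 0 < Q := Nat.mul_pos hQ₀ (Finset.prod_pos fun i _ => (H.b i).den_pos)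
  have hcop : IsCoprime t₀ (Q₀ : ℤ) := by
    have : (Q₀ : ℤ) = ∏ i, ((x i).den : ℤ) := by simp [Q₀]
    rw [this]
    exact IsCoprime.prod_right fun i _ => ht₀ i
  obtain ⟨t₁, ht₁, hdiv⟩ := exists_lift Q₀ Q hQ₀ hQ t₀ hcop
  have hxQ₀ : ∀ i, ((x i).den : ℤ) ∣ (Q₀ : ℤ) := fun i =>
    Int.natCast_dvd_natCast.2 (Finset.dvd_prod_of_mem _ (mem_univ i))
  have hQ₀Q : (Q₀ : ℤ) ∣ (Q : ℤ) := Int.natCast_dvd_natCast.2 (dvd_mul_right _ _)
  have hbQ : ∀ i, ((H.b i).den : ℤ) ∣ (Q : ℤ) := fun i =>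
    Int.natCast_dvd_natCast.2 (dvd_mul_of_dvd_right (Finset.dvd_prod_of_mem _ (mem_univ i)) _)
  have ht₁x : ∀ i, IsCoprime t₁ ((x i).den : ℤ) := fun i =>
    ht₁.of_isCoprime_of_dvd_right ((hxQ₀ i).trans hQ₀Q)
  -- `fract (t₁ x_i) = fract (t₀ x_i)`
  have hf1 : ∀ i, Int.fract ((t₁ : ℚ) * x i) = Int.fract ((t₀ : ℚ) * x i) := by
    intro i
    apply FA_fract_congr
    obtain ⟨n, hn⟩ := FA_int_of_dvd (x i) (t₁ - t₀) ((hxQ₀ i).trans hdiv)
    refine ⟨n, ?_⟩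
    rw [← hn]
    push_cast
    ring
  have hy : ∀ i, Int.fract (∑ j, (H.A i j : ℚ) * ((t₁ : ℚ) * u j) + (t₁ : ℚ) * H.b i) =
      Int.fract ((t₁ : ℚ) * x i) := by
    intro i
    obtain ⟨n, hn⟩ := hu i
    apply FA_fract_congr
    refine ⟨-(t₁ * n), ?_⟩
    rw [hn]
    push_cast
    have : ∑ j, (H.A i j : ℚ) * ((t₁ : ℚ) * u j) = (t₁ : ℚ) * ∑ j, (H.A i j : ℚ) * u j := by
      rw [Finset.mul_sum]
      exact Finset.sum_congr rfl fun j _ => by ring
    rw [this]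
    ring
  obtain ⟨δ, hδ, hloc⟩ := local_const H.A (fun i => (t₁ : ℚ) * H.b i)
    (fun j => (t₁ : ℚ) * u j) ((k : ℚ) / 2)
    (fun i => by
      rw [hy i]
      exact FA_fract_ne (hx0 i) (ht₁x i))
    (by
      rw [Finset.sum_congr rfl fun i _ => (hy i).trans (hf1 i)]
      exact hsum)
  obtain ⟨C, hC⟩ := box H.d Q hQ t₁ ht₁ (fun j => (((t₁ : ℚ) * u j : ℚ) : ℝ)) δ hδ
  refine ⟨C, ?_⟩
  intro x' hx' hT
  obtain ⟨u', hu'⟩ := hx'
  refine ⟨u', hu', ?_⟩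
  let M : ℕ := Q * ((∏ j, (u' j).den) * ∏ i, (x' i).den)
  have hM : 0 < M := Nat.mul_pos hQ (Nat.mul_pos (Finset.prod_pos fun i _ => (u' i).den_pos)
    (Finset.prod_pos fun i _ => (x' i).den_pos))
  have huM : ∀ j, (u' j).den ∣ M := fun j => dvd_mul_of_dvd_right (dvd_mul_of_dvd_left
    (Finset.dvd_prod_of_mem _ (mem_univ j)) _) _
  have hxM : ∀ i, (x' i).den ∣ M := fun i => dvd_mul_of_dvd_right (dvd_mul_of_dvd_right
    (Finset.dvd_prod_of_mem (fun i => (x' i).den) (mem_univ i)) _) _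
  rcases hC M hM (dvd_mul_right _ _) u' huM with h | ⟨t, htM, htQ, hclose⟩
  · exact h
  exfalso
  choose n hn using hclose
  have h1 := hloc (fun j => (t : ℚ) * u' j - n j) (by
    intro j
    have h2 := hn j
    have h3 : (t : ℝ) * (u' j : ℝ) - (((t₁ : ℚ) * u j : ℚ) : ℝ) - n j =
        ((((t : ℚ) * u' j - n j : ℚ)) : ℝ) - (((t₁ : ℚ) * u j : ℚ) : ℝ) := by
      push_cast
      ring
    rwa [h3] at h2)
  apply h1
  rw [← hT.2 t (fun i => htM.of_isCoprime_of_dvd_right (Int.natCast_dvd_natCast.2 (hxM i)))]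
  refine Finset.sum_congr rfl fun i _ => ?_
  apply FA_fract_congr
  obtain ⟨m, hm⟩ := hu' i
  obtain ⟨m', hm'⟩ := FA_int_of_dvd (H.b i) (t - t₁) ((hbQ i).trans htQ)
  refine ⟨-(∑ j, H.A i j * n j) - m' - t * m, ?_⟩
  rw [hm]
  push_cast
  push_cast at hm'
  have h2 : ∑ j, (H.A i j : ℚ) * ((t : ℚ) * u' j - n j) =
      (t : ℚ) * (∑ j, (H.A i j : ℚ) * u' j) - ∑ j, (H.A i j : ℚ) * n j := by
    rw [Finset.mul_sum, ← Finset.sum_sub_distrib]
    exact Finset.sum_congr rfl fun j _ => by ring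
  rw [h2, ← hm']
  ring

/-- finiteness of families -/
theorem families {k : ℕ} (H : Fam k) :
    ∃ Ls : List (Fam k), (∀ H' ∈ Ls, H'.Pure ∧ ∀ x, H'.Mem x → H.Mem x) ∧
      ∀ x, H.Mem x → Tate x → ∃ H' ∈ Ls, H'.Mem x := by
  suffices h : ∀ d, ∀ H : Fam k, H.d = d → FA_Cov H {x | H.Mem x} from h _ H rfl
  intro d
  induction d with
  | zero =>
    intro H hd
    by_cases hp : H.Pure
    · exact ⟨[H], by simpa using hp, fun x hx _ => ⟨H, by simp, hx⟩⟩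
    obtain ⟨C, hC⟩ := FA_step H hp
    refine ⟨[], by simp, ?_⟩
    intro x hx hT
    obtain ⟨u, _, γ, hγ, _⟩ := hC x hx hT
    exfalso
    apply hγ
    funext j
    have := j.2
    omega
  | succ d ih =>
    intro H hd
    by_cases hp : H.Pure
    · exact ⟨[H], by simpa using hp, fun x hx _ => ⟨H, by simp, hx⟩⟩
    obtain ⟨C, hC⟩ := FA_step H hp
    -- the finite list of equations
    let l : List ((Fin H.d → ℤ) × ℕ × ℕ) :=
      ((Finset.Icc (fun _ => -(C : ℤ)) (fun _ => (C : ℤ))) ×ˢ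
        (range (C + 1) ×ˢ range (C + 1))).toList
    let S : (Fin H.d → ℤ) × ℕ × ℕ → Set (Fin k → ℚ) := fun q =>
      {x | q.1 ≠ 0 ∧ ∃ u : Fin H.d → ℚ,
        (∃ n : ℤ, ∑ j, (q.1 j : ℚ) * u j = (q.2.1 : ℚ) / q.2.2 + n) ∧
        ∀ i, ∃ n : ℤ, x i = ∑ j, (H.A i j : ℚ) * u j + H.b i + n}
    refine FA_cov_mono (FA_cov_list H l S ?_) ?_
    · intro q _
      by_cases hq : q.1 = 0
      · exact ⟨[], by simp, fun x hx _ => absurd hq hx.1⟩
      obtain ⟨L1, hL1, hL2⟩ := subfam H q.1 hq ((q.2.1 : ℚ) / q.2.2)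
      refine FA_cov_mono (FA_cov_list H L1 (fun H' => {x | H'.Mem x}) ?_) ?_
      · intro H' hH'
        obtain ⟨h3, h4⟩ := hL1 H' hH'
        exact FA_cov_sub (ih H' (by omega)) h4
      · rintro x ⟨_, u, hu, hx⟩ _
        exact hL2 x u hu hx
    · intro x hx hT
      obtain ⟨u, hu, γ, hγ, hγC, hden⟩ := hC x hx hT
      let q : ℚ := ∑ j, (γ j : ℚ) * u j
      have hdpos : (0 : ℤ) < q.den := by exact_mod_cast q.den_pos
      have h0 : 0 ≤ q.num % q.den := Int.emod_nonneg _ hdpos.ne'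
      have h5 : q.num % q.den < q.den := Int.emod_lt_of_pos _ hdpos
      have hdC : q.den ≤ C := hden
      refine ⟨(γ, (q.num % q.den).toNat, q.den), ?_, hγ, u, ⟨q.num / q.den, ?_⟩, hu⟩
      · rw [Finset.mem_toList, Finset.mem_product, Finset.mem_product]
        refine ⟨?_, ?_, ?_⟩
        · rw [Finset.mem_Icc]
          exact ⟨fun j => (abs_le.1 (hγC j)).1, fun j => (abs_le.1 (hγC j)).2⟩
        · rw [Finset.mem_range]
          show (q.num % q.den).toNat < C + 1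
          omega
        · rw [Finset.mem_range]
          show q.den < C + 1
          omega
      · have h6 : (((q.num % q.den).toNat : ℕ) : ℚ) = ((q.num % q.den : ℤ) : ℚ) := by
          have h7 := congrArg (Int.cast : ℤ → ℚ) (Int.toNat_of_nonneg h0)
          rwa [Int.cast_natCast] at h7
        have h8 : (q.num : ℚ) = (q.den : ℚ) * ((q.num / q.den : ℤ) : ℚ) +
            ((q.num % q.den : ℤ) : ℚ) := by
          exact_mod_cast (Int.mul_ediv_add_emod q.num q.den).symm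
        have h9 : (q.den : ℚ) ≠ 0 := by exact_mod_cast q.den_nz
        show q = (((q.num % q.den).toNat : ℕ) : ℚ) / (q.den : ℚ) + _
        rw [h6]
        have h10 : q = q.num / q.den := (Rat.num_div_den q).symm
        calc q = q.num / q.den := h10
          _ = _ := by rw [h8]; field_simp; ring

end Pool.Agent.helper76.FV
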