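import Pool.Agent.helper76.FV.Defs

/-! # Project FV, module SF: sub-families -/

namespace Pool.Agent.helper76.FV

open Finset

/-- the sub-family number `l` -/
noncomputable def SF_fam {k d : ℕ} (A : Fin k → Fin (d + 1) → ℤ) (b : Fin k → ℚ)
    (γ : Fin (d + 1) → ℤ) (j₀ : Fin (d + 1)) (s : ℚ) (l : ℕ) : Fam k where
  d := d
  A i j := γ j₀ * A i (j₀.succAbove j) - γ (j₀.succAbove j) * A i j₀
  b i := b i + (A i j₀ : ℚ) * ((s + l) / γ j₀)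

theorem SF_mem {k d : ℕ} (A : Fin k → Fin (d + 1) → ℤ) (b : Fin k → ℚ)
    (γ : Fin (d + 1) → ℤ) (j₀ : Fin (d + 1)) (s : ℚ) (l : ℕ) (x : Fin k → ℚ)
    (h : (SF_fam A b γ j₀ s l).Mem x) : (⟨d + 1, A, b⟩ : Fam k).Mem x := by
  obtain ⟨v, hv⟩ := h
  change Fin d → ℚ at v
  refine ⟨j₀.insertNth (-(∑ j : Fin d, (γ (j₀.succAbove j) : ℚ) * v j) + (s + l) / γ j₀)
    (fun j => (γ j₀ : ℚ) * v j), ?_⟩
  intro i
  obtain ⟨n, hn⟩ := hv i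
  refine ⟨n, ?_⟩
  change x i = ∑ j : Fin (d + 1), (A i j : ℚ) * _ + b i + n
  rw [Fin.sum_univ_succAbove _ j₀]
  simp only [Fin.insertNth_apply_same, Fin.insertNth_apply_succAbove]
  rw [hn]
  change ∑ j : Fin d, ((γ j₀ * A i (j₀.succAbove j) - γ (j₀.succAbove j) * A i j₀ : ℤ) : ℚ) * v j
    + (b i + (A i j₀ : ℚ) * ((s + l) / γ j₀)) + n = _
  push_cast
  have h1 : ∑ j : Fin d, ((γ j₀ : ℚ) * A i (j₀.succAbove j) - γ (j₀.succAbove j) * A i j₀) * v j =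
      (∑ j : Fin d, (A i (j₀.succAbove j) : ℚ) * ((γ j₀ : ℚ) * v j)) -
        (A i j₀ : ℚ) * ∑ j : Fin d, (γ (j₀.succAbove j) : ℚ) * v j := by
    rw [Finset.mul_sum, ← Finset.sum_sub_distrib]
    refine Finset.sum_congr rfl fun j _ => ?_
    ring
  rw [h1]
  ring

theorem SF_cover {k d : ℕ} (A : Fin k → Fin (d + 1) → ℤ) (b : Fin k → ℚ)
    (γ : Fin (d + 1) → ℤ) (j₀ : Fin (d + 1)) (hj : γ j₀ ≠ 0) (s : ℚ) (x : Fin k → ℚ)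
    (u : Fin (d + 1) → ℚ) (hu : ∃ n : ℤ, ∑ j, (γ j : ℚ) * u j = s + n)
    (hx : ∀ i, ∃ n : ℤ, x i = ∑ j, (A i j : ℚ) * u j + b i + n) :
    ∃ l < (γ j₀).natAbs, (SF_fam A b γ j₀ s l).Mem x := by
  obtain ⟨n, hn⟩ := hu
  have hj' : (γ j₀ : ℚ) ≠ 0 := Int.cast_ne_zero.2 hj
  have hpos : 0 ≤ n % γ j₀ := Int.emod_nonneg _ hj
  have hlt : n % γ j₀ < |γ j₀| := Int.emod_lt_abs _ hj
  have hl : (((n % γ j₀).toNat : ℕ) : ℤ) = n % γ j₀ := Int.toNat_of_nonneg hpos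
  refine ⟨(n % γ j₀).toNat, ?_, fun j => u (j₀.succAbove j) / γ j₀, ?_⟩
  · rw [Int.abs_eq_natAbs] at hlt
    omega
  intro i
  obtain ⟨m, hm⟩ := hx i
  refine ⟨A i j₀ * (n / γ j₀) + m, ?_⟩
  change x i = ∑ j : Fin d, ((γ j₀ * A i (j₀.succAbove j) - γ (j₀.succAbove j) * A i j₀ : ℤ) : ℚ) *
    (u (j₀.succAbove j) / γ j₀)
    + (b i + (A i j₀ : ℚ) * ((s + ((n % γ j₀).toNat : ℕ)) / γ j₀)) + _
  rw [hm, Fin.sum_univ_succAbove _ j₀]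
  rw [Fin.sum_univ_succAbove _ j₀] at hn
  have hl' : (((n % γ j₀).toNat : ℕ) : ℚ) = ((n % γ j₀ : ℤ) : ℚ) := by
    have h0 := congrArg (Int.cast : ℤ → ℚ) hl
    rwa [Int.cast_natCast] at h0
  have hdiv : (n : ℚ) = (γ j₀ : ℚ) * ((n / γ j₀ : ℤ) : ℚ) + ((n % γ j₀ : ℤ) : ℚ) := by
    have := Int.mul_ediv_add_emod n (γ j₀)
    exact_mod_cast this.symm
  rw [hl']
  push_cast
  have h1 : ∑ j : Fin d, ((γ j₀ : ℚ) * A i (j₀.succAbove j) - γ (j₀.succAbove j) * A i j₀) *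
      (u (j₀.succAbove j) / γ j₀) =
      (∑ j : Fin d, (A i (j₀.succAbove j) : ℚ) * u (j₀.succAbove j)) -
        (A i j₀ : ℚ) * ((∑ j : Fin d, (γ (j₀.succAbove j) : ℚ) * u (j₀.succAbove j)) / γ j₀) := by
    rw [Finset.sum_div, Finset.mul_sum, ← Finset.sum_sub_distrib]
    refine Finset.sum_congr rfl fun j _ => ?_
    field_simp
  have h2 : ∑ j : Fin d, (γ (j₀.succAbove j) : ℚ) * u (j₀.succAbove j) =
      s + n - (γ j₀ : ℚ) * u j₀ := by linarith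
  rw [h1, h2, hdiv]
  field_simp
  ring

/-- sub-families -/
theorem subfam {k : ℕ} (H : Fam k) (γ : Fin H.d → ℤ) (hγ : γ ≠ 0) (s : ℚ) :
    ∃ Ls : List (Fam k), (∀ H' ∈ Ls, H'.d + 1 = H.d ∧ ∀ x, H'.Mem x → H.Mem x) ∧
      ∀ x : Fin k → ℚ, ∀ u : Fin H.d → ℚ, (∃ n : ℤ, ∑ j, (γ j : ℚ) * u j = s + n) →
        (∀ i, ∃ n : ℤ, x i = ∑ j, (H.A i j : ℚ) * u j + H.b i + n) → ∃ H' ∈ Ls, H'.Mem x := by
  obtain ⟨d, A, b⟩ := H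
  change Fin d → ℤ at γ
  obtain ⟨j₀, hj⟩ : ∃ j, γ j ≠ 0 := Function.ne_iff.1 hγ
  obtain ⟨d, rfl⟩ : ∃ e, d = e + 1 := ⟨d - 1, by have := j₀.pos; omega⟩
  refine ⟨(List.range (γ j₀).natAbs).map (SF_fam A b γ j₀ s), ?_, ?_⟩
  · intro H' hH'
    obtain ⟨l, _, rfl⟩ := List.mem_map.1 hH'
    exact ⟨rfl, fun x hx => SF_mem A b γ j₀ s l x hx⟩
  · intro x u hu hx
    obtain ⟨l, hl, hmem⟩ := SF_cover A b γ j₀ hj s x u hu hx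
    exact ⟨_, List.mem_map.2 ⟨l, List.mem_range.2 hl, rfl⟩, hmem⟩

end Pool.Agent.helper76.FV
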