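import Pool.Agent.helper92.FV.Defs2
import Pool.Agent.helper92.FV.CV
import Pool.Agent.helper37.FV.F1
import Pool.Agent.helper19.FV.CH

/-! # MP_51fbee_al, modules SL1 SL2 SL3 : common lemmas -/

namespace FV

universe u

variable {k : Type u} [Field k]

lemma SL_base_gr (n b : ℤ) : ((DGA.base k).gr n b).toAddSubgroup = ⊥ ↔ ¬ (n = 0 ∧ b = 0) := by
  constructor
  · rintro h ⟨rfl, rfl⟩
    have h1 : (1 : (DGA.base k).A) ∈ ((DGA.base k).gr 0 0).toAddSubgroup := (DGA.base k).one_mem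
    rw [h] at h1
    have h2 : (1 : k) = 0 := h1
    exact one_ne_zero h2
  · intro h
    have : (DGA.base k).gr n b = ⊥ := if_neg h
    rw [this]; rfl

lemma SL_has_iff {M : DGA k} (G : Twist M) (f : DGA.Hom M (DGA.base k)) (n b : ℤ) :
    (G.tens (DGMod.ofHom f)).Van n b ↔ ¬ G.Has n b := by
  rw [tens_triv G (DGMod.ofHom f) (fun x => rfl)]
  · constructor
    · rintro h ⟨α, rfl, rfl⟩
      have h1 := h α
      have h2 := (SL_base_gr (k := k) (G.n α - G.n α) (G.j α - G.j α)).mp h1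
      exact h2 ⟨sub_self _, sub_self _⟩
    · intro h α
      refine (SL_base_gr (k := k) (n - G.n α) (b - G.j α)).mpr ?_
      rintro ⟨h1, h2⟩
      exact h ⟨α, by omega, by omega⟩
  · intro i j hij a ha x
    have h1 : f.f a ∈ (DGA.base k).gr i j := f.f_mem ha
    have h2 : (DGA.base k).gr i j = ⊥ := if_neg (by
      rintro ⟨rfl, rfl⟩; exact hij rfl)
    rw [h2] at h1
    have h3 : f.f a = 0 := (Submodule.mem_bot k).mp h1
    have h4 : ∀ z : (DGA.base k).A, f.f a * z = 0 := fun z => by rw [h3, zero_mul]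
    exact h4 x

lemma SL_has00 {M : DGA k} {G : Twist M} {J : ℤ} (hG : G.IsRes J) : G.Has 0 0 := by
  obtain ⟨o, h1, h2, -⟩ := hG.orig
  exact ⟨o, h1, h2⟩

lemma SL_van_iff {M X : DGA k} (G : Twist M) (f : DGA.Hom M X) (n b : ℤ) :
    (G.tens (DGMod.ofHom f)).Van n b ↔
      ∀ x : G.I → X.A, (∀ α, x α ∈ X.gr (n - G.n α) (b - G.j α)) →
        (∀ β, sg (G.n β) • X.d (x β) + ∑ α, f.f (G.c β α) * x α = 0) →
        ∃ y : G.I → X.A, (∀ α, y α ∈ X.gr (n + 1 - G.n α) (b - G.j α)) ∧
          ∀ β, sg (G.n β) • X.d (y β) + ∑ α, f.f (G.c β α) * y α = x β := by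
  constructor
  · intro h x hx hD
    obtain ⟨y, hy, hDy⟩ := h x hx (funext hD)
    exact ⟨y, hy, fun β => congrFun hDy β⟩
  · intro h x hx hD
    obtain ⟨y, hy, hDy⟩ := h x hx (fun β => congrFun hD β)
    exact ⟨y, hy, funext hDy⟩

lemma SL_van_of_zero {M X : DGA k} (G : Twist M) (f : DGA.Hom M X) (n b : ℤ)
    (h : ∀ α, ∀ x ∈ X.gr (n - G.n α) (b - G.j α), x = 0) : (G.tens (DGMod.ofHom f)).Van n b := by
  rw [SL_van_iff]
  intro x hx _
  refine ⟨fun _ => 0, fun α => Submodule.zero_mem _, fun β => ?_⟩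
  rw [h β (x β) (hx β)]
  simp

/-- the unit cycle is not a boundary -/
lemma SL_van00 {M : DGA k} (hM : M.Conn) {G : Twist M} {J : ℤ} (hG : G.IsRes J) {X : DGA k}
    {f : DGA.Hom M X} {L : List (ℤ × ℤ)} (hc : DGA.Chain M X f L) (κ : DGA.Hom X (DGA.base k)) :
    ¬ (G.tens (DGMod.ofHom f)).Van 0 0 := by
  classical
  rw [SL_van_iff]
  intro hV
  obtain ⟨o, ho1, ho2, ho3⟩ := hG.orig
  have hone : (1 : X.A) ≠ 0 := by
    intro h
    have h1 : κ.f 1 = 0 := by rw [h, map_zero]
    rw [map_one] at h1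
    exact one_ne_zero (α := k) h1
  have hX10 : ∀ y ∈ X.gr 1 0, y = 0 := by
    intro y hy
    obtain ⟨x, hx, rfl⟩ := Chain.surj hc 1 0 y hy
    by_contra hne
    have hx0 : x ≠ 0 := by
      rintro rfl
      exact hne (map_zero _)
    rcases hM.cone 1 0 x hx hx0 with h | h <;> omega
  have hcz : ∀ β, G.c β o = 0 := by
    intro β
    by_contra h
    have := G.c_zero β o h
    have h2 := G.j_nonneg β
    omega
  obtain ⟨y, hy, hDy⟩ := hV (fun α => if α = o then 1 else 0) (by
      intro α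
      by_cases h : α = o
      · subst h
        rw [if_pos rfl, ho1, ho2]
        simpa using X.one_mem
      · rw [if_neg h]
        exact Submodule.zero_mem _) (by
      intro β
      have h1 : X.d (if β = o then 1 else 0) = 0 := by
        by_cases h : β = o
        · rw [if_pos h, X.d_one]
        · rw [if_neg h, map_zero]
      rw [h1, smul_zero, zero_add]
      refine Finset.sum_eq_zero fun α _ => ?_
      by_cases h : α = o
      · subst h
        rw [hcz, map_zero, zero_mul]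
      · rw [if_neg h, mul_zero])
  have hyall : ∀ α, y α = 0 := by
    intro α
    have h1 := hy α
    by_cases h : α = o
    · subst h
      rw [ho1, ho2] at h1
      exact hX10 _ (by simpa using h1)
    · exact X.neg_right (by have := ho3 α h; omega) h1
  have h3 := hDy o
  rw [if_pos rfl, hyall o, map_zero, smul_zero, zero_add, Finset.sum_eq_zero] at h3
  · exact hone h3.symm
  · intro α _
    rw [hyall α, mul_zero]

/-- vanishing of `Tor(X, k)` along a chain, in the region above a line. -/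
lemma SL_chain {M : DGA k} {G : Twist M} {J : ℤ} (hG : G.IsRes J) {X : DGA k}
    {f : DGA.Hom M X} {L : List (ℤ × ℤ)} (hc : DGA.Chain M X f L) (hL : ∀ v ∈ L, 1 ≤ v.2)
    (hL1 : ∀ v ∈ L, 0 ≤ v.1)
    (σ : ℝ) (N : ℤ) (hσ : ∀ v ∈ L, v.1 < N → (v.2 : ℝ) ≤ σ * (v.1 + 1))
    (n b : ℤ) (hn : n ≤ N) (hb : b ≤ J) (hnb : σ * n < b) :
    (G.tens (DGMod.ofHom f)).Van n b := by
  by_cases hbneg : b < 0
  · exact SL_van_of_zero G f n b fun α x hx =>
      X.neg_right (by have := G.j_nonneg α; omega) hx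
  by_cases hnneg : n < 0
  · exact SL_van_of_zero G f n b fun α x hx =>
      X.neg_left (by have := G.n_nonneg α; omega) hx
  refine chain_van hc G
    {p | p.1 < 0 ∨ p.2 < 0 ∨ (p.1 ≤ N ∧ p.2 ≤ J ∧ σ * p.1 < p.2)} hL ?_ ?_ n b
    (Or.inr (Or.inr ⟨hn, hb, hnb⟩))
  · rintro n b (h | h | ⟨h1, h2, h3⟩)
    · exact SL_van_of_zero G (DGA.Hom.id M) n b fun α x hx =>
        M.neg_left (by have := G.n_nonneg α; simp only at h; omega) hx
    · exact SL_van_of_zero G (DGA.Hom.id M) n b fun α x hx =>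
        M.neg_right (by have := G.j_nonneg α; simp only at h; omega) hx
    · refine hG.van n b h2 ?_
      intro h
      obtain ⟨rfl, rfl⟩ := Prod.mk.injEq _ _ _ _ ▸ h
      simp at h3
  · rintro n b hnb v hv
    by_cases hn1 : n - 1 - v.1 < 0
    · exact Or.inl hn1
    by_cases hb1 : b - v.2 < 0
    · exact Or.inr (Or.inl hb1)
    have hv1 := hL1 v hv
    have hv2 := hL v hv
    rcases hnb with h | h | ⟨h1, h2, h3⟩
    · simp only at h; omega
    · simp only at h; omega
    · simp only at h1 h2 h3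
      refine Or.inr (Or.inr ⟨?_, ?_, ?_⟩)
      · show n - 1 - v.1 ≤ N
        omega
      · show b - v.2 ≤ J
        omega
      · have h4 := hσ v hv (by omega)
        show σ * ((n - 1 - v.1 : ℤ) : ℝ) < ((b - v.2 : ℤ) : ℝ)
        push_cast
        nlinarith

end FV
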