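import Pool.Agent.helper19.FV.SL0

/-! # MP_51fbee_al, module SL1 : slopes of new variables -/

namespace FV

universe u

variable {k : Type u} [Field k]

/-- the step `X → k` in the long exact sequence -/
lemma SL_step {M : DGA k} {G : Twist M} {X : DGA k}
    {f : DGA.Hom M X} {κ : DGA.Hom X (DGA.base k)}
    {i j : ℤ} {v0 : X.A} (h : DGA.IsStep κ i j v0) (n b : ℤ)
    (hX : (G.tens (DGMod.ofHom f)).Van n b) (hh : ¬ G.Has (n + 1) b) :
    (Even i → (G.tens (DGMod.ofHom f)).Van (n - i) (b - j)) ∧
    (Odd i → ¬ G.Has (n - i) (b - j)) := by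
  constructor
  · intro hi
    obtain ⟨S⟩ := IsStep.ses_even f κ hi h
    obtain ⟨B⟩ := SES.tens G S
    refine B.L3 n b ?_ hX
    rw [add_zero, add_zero]
    exact (SL_has_iff G (κ.comp f) (n + 1) b).mpr hh
  · intro hi
    obtain ⟨S⟩ := IsStep.ses_odd f κ hi h
    obtain ⟨B⟩ := SES.tens G S
    have := B.L3 n b (by
      rw [add_zero, add_zero]
      exact (SL_has_iff G (κ.comp f) (n + 1) b).mpr hh) hX
    exact (SL_has_iff G (κ.comp f) (n - i) (b - j)).mp this

section Ring

variable {R : Type u} [CommRing R] [Algebra k R] {𝒜 : ℕ → Submodule k R} [GradedAlgebra 𝒜]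

/-- new variables of a model are bounded by the slopes of `Tor` -/
theorem slope_new {xs : List R} {J : ℤ} (P : PreModel 𝒜 xs J) (G : Twist P.M) (hG : G.IsRes J)
    (σ : ℝ) (hσ : 1 ≤ σ)
    (hold : ∀ v ∈ P.vars, v.2 = J ∨ (v.2 : ℝ) ≤ σ * (v.1 + 1))
    (hT : ∀ n b, b ≤ J → G.Has n b → (b : ℝ) ≤ σ * n) :
    ∀ v ∈ P.vars, (v.2 : ℝ) ≤ σ * (v.1 + 1) := by
  have main : ∀ t : ℕ, ∀ v ∈ P.vars, v.1.toNat = t → (v.2 : ℝ) ≤ σ * (v.1 + 1) := by
    intro t
    induction t using Nat.strong_induction_on with
    | _ t ih =>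
      intro v hv ht
      by_contra hcon
      have hvJ : v.2 = J := by
        rcases hold v hv with h | h
        · exact h
        · exact absurd h hcon
      rw [not_le] at hcon
      obtain ⟨hv1, hv2, -⟩ := P.vars_le v hv
      rcases P.marks v hv with ⟨L, X, f, κ, v0, hL, hc, hstep, -⟩ | ⟨-, m, hm, hmem⟩
      · have hL1 : ∀ w ∈ L, 0 ≤ w.1 ∧ 1 ≤ w.2 := by
          intro w hw
          rcases hL w hw with rfl | h
          · exact ⟨le_refl _, le_refl _⟩
          · have := P.vars_le w h; omega
        have hX : (G.tens (DGMod.ofHom f)).Van v.1 J := by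
          refine SL_chain hG hc (fun w hw => (hL1 w hw).2) (fun w hw => (hL1 w hw).1) σ v.1 ?_
            v.1 J le_rfl le_rfl ?_
          · intro w hw hlt
            rcases hL w hw with rfl | h
            · simpa using hσ
            · exact ih w.1.toNat (by have := P.vars_le w h; omega) w h rfl
          · rw [hvJ] at hcon
            nlinarith
        have hH : ¬ G.Has (v.1 + 1) J := by
          intro h
          have h1 := hT _ _ le_rfl h
          rw [hvJ] at hcon
          push_cast at h1
          linarith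
        obtain ⟨h1, h2⟩ := SL_step hstep v.1 J hX hH
        rw [sub_self, hvJ, sub_self] at h1 h2
        rcases Int.even_or_odd v.1 with he | ho
        · exact SL_van00 P.conn hG hc κ (h1 he)
        · exact h2 ho (SL_has00 hG)
      · have h3 := (P.vars_le _ hmem).2.2
        simp only at h3
        rw [hvJ] at h3
        have hJ : 1 ≤ J := by omega
        nlinarith
  intro v hv
  exact main v.1.toNat v hv rfl

end Ring

end FV
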