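import Pool.Agent.helper19.FV.SL1

/-! # MP_51fbee_al, module SL2 : persistence of odd extremal variables -/

namespace FV

universe u

variable {k : Type u} [Field k]

section Ring

variable {R : Type u} [CommRing R] [Algebra k R] {𝒜 : ℕ → Submodule k R} [GradedAlgebra 𝒜]

/-- persistence of odd extremal variables -/
theorem odd_persist {xs : List R} {J : ℤ} (P : PreModel 𝒜 xs J) (G : Twist P.M) (hG : G.IsRes J)
    (σ : ℝ) (hσ : 1 < σ) (hs : ∀ v ∈ P.vars, (v.2 : ℝ) ≤ σ * (v.1 + 1))
    (v : ℤ × ℤ) (hv : v ∈ P.vars) (hodd : Odd v.1) (hext : (v.2 : ℝ) = σ * (v.1 + 1))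
    (m : ℕ) (hm : m * v.2 ≤ J) : G.Has (m * (v.1 + 1)) (m * v.2) := by
  obtain ⟨hv1, hv2, -⟩ := P.vars_le v hv
  rcases P.marks v hv with ⟨L, X, f, κ, v0, hL, hc, hstep, -⟩ | ⟨he, -⟩
  · have hL1 : ∀ w ∈ L, 0 ≤ w.1 ∧ 1 ≤ w.2 := by
      intro w hw
      rcases hL w hw with rfl | h
      · exact ⟨le_refl _, le_refl _⟩
      · have := P.vars_le w h; omega
    induction m with
    | zero => simpa using SL_has00 hG
    | succ m ih =>
      have hm1 : (m : ℤ) * v.2 ≤ J := by
        push_cast at hm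
        nlinarith
      have ih1 := ih hm1
      have hX : (G.tens (DGMod.ofHom f)).Van (((m + 1 : ℕ) : ℤ) * (v.1 + 1) - 1)
          (((m + 1 : ℕ) : ℤ) * v.2) := by
        refine SL_chain hG hc (fun w hw => (hL1 w hw).2) (fun w hw => (hL1 w hw).1) σ
          (((m + 1 : ℕ) : ℤ) * (v.1 + 1) - 1) ?_ _ _ le_rfl hm ?_
        · intro w hw _
          rcases hL w hw with rfl | h
          · simpa using hσ.le
          · exact hs w h
        · push_cast
          rw [hext]
          nlinarith
      by_contra hcon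
      obtain ⟨-, h2⟩ := SL_step hstep _ _ hX (by
        rw [sub_add_cancel]; exact hcon)
      apply h2 hodd
      have e1 : ((m + 1 : ℕ) : ℤ) * (v.1 + 1) - 1 - v.1 = m * (v.1 + 1) := by
        push_cast; ring
      have e2 : ((m + 1 : ℕ) : ℤ) * v.2 - v.2 = m * v.2 := by
        push_cast; ring
      rw [e1, e2]
      exact ih1
  · exact absurd he (Int.not_even_iff_odd.mpr hodd)

/-- a nonzero `Tor` on the extremal line comes from an extremal variable -/
theorem exists_extremal {xs : List R} {J : ℤ} (P : PreModel 𝒜 xs J) (G : Twist P.M)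
    (hG : G.IsRes J) (σ : ℝ) (hσ : 1 < σ) (hs : ∀ v ∈ P.vars, (v.2 : ℝ) ≤ σ * (v.1 + 1))
    (n b : ℤ) (hn : 1 ≤ n) (hb : b ≤ J) (hnb : (b : ℝ) = σ * n) (hT : G.Has n b) :
    ∃ v ∈ P.vars, (v.2 : ℝ) = σ * (v.1 + 1) ∧ v.2 ≤ b := by
  by_contra hcon
  push Not at hcon
  obtain ⟨Mb, f, g, hx, hc⟩ := P.chain
  have hch := Chain.trans (XChain.chain hx) hc
  have hL : ∀ w ∈ P.vars ++ List.replicate P.ys.length ((0 : ℤ), (1 : ℤ)),
      w = (0, 1) ∨ w ∈ P.vars := by
    intro w hw
    rcases List.mem_append.mp hw with h | h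
    · exact Or.inr h
    · exact Or.inl (List.eq_of_mem_replicate h)
  have hL1 : ∀ w ∈ P.vars ++ List.replicate P.ys.length ((0 : ℤ), (1 : ℤ)),
      0 ≤ w.1 ∧ 1 ≤ w.2 := by
    intro w hw
    rcases hL w hw with rfl | h
    · exact ⟨le_refl _, le_refl _⟩
    · have := P.vars_le w h; omega
  have hV : (G.tens (DGMod.ofHom (g.comp f))).Van n b := by
    refine chain_van hch G
      {p | p.1 < 0 ∨ p.2 < 0 ∨ (p.2 ≤ b ∧ σ * p.1 ≤ p.2 ∧ p ≠ (0, 0))}
      (fun w hw => (hL1 w hw).2) ?_ ?_ n b ?_
    · rintro n' b' (h | h | ⟨h1, h2, h3⟩)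
      · exact SL_van_of_zero G (DGA.Hom.id P.M) n' b' fun α x hx =>
          P.M.neg_left (by have := G.n_nonneg α; simp only at h; omega) hx
      · exact SL_van_of_zero G (DGA.Hom.id P.M) n' b' fun α x hx =>
          P.M.neg_right (by have := G.j_nonneg α; simp only at h; omega) hx
      · exact hG.van n' b' (le_trans h1 hb) h3
    · rintro n' b' hnb' w hw
      obtain ⟨hw1, hw2⟩ := hL1 w hw
      by_cases hn1 : n' - 1 - w.1 < 0
      · exact Or.inl hn1
      by_cases hb1 : b' - w.2 < 0
      · exact Or.inr (Or.inl hb1)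
      rcases hnb' with h | h | ⟨h1, h2, h3⟩
      · simp only at h; omega
      · simp only at h; omega
      · simp only at h1 h2
        have h4 : (w.2 : ℝ) ≤ σ * (w.1 + 1) := by
          rcases hL w hw with rfl | h
          · simpa using hσ.le
          · exact hs w h
        refine Or.inr (Or.inr ⟨?_, ?_, ?_⟩)
        · show b' - w.2 ≤ b
          omega
        · show σ * ((n' - 1 - w.1 : ℤ) : ℝ) ≤ ((b' - w.2 : ℤ) : ℝ)
          push_cast
          nlinarith
        · intro h0
          have h5 : n' - 1 - w.1 = 0 := congrArg Prod.fst h0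
          have h6 : b' - w.2 = 0 := congrArg Prod.snd h0
          have h7 : n' = w.1 + 1 := by omega
          have h8 : b' = w.2 := by omega
          rw [h7, h8] at h2
          push_cast at h2
          have h9 : (w.2 : ℝ) = σ * (w.1 + 1) := le_antisymm h4 h2
          rcases hL w hw with rfl | h
          · simp at h9
            linarith
          · have := hcon w h h9
            omega
    · refine Or.inr (Or.inr ⟨le_refl _, hnb.symm.le, ?_⟩)
      intro h
      have := congrArg Prod.fst h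
      simp only at this
      omega
  exact (SL_has_iff G (g.comp f) n b).mp hV hT

end Ring

end FV
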