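import Pool.Agent.helper19.FV.SL1

/-! # MP_51fbee_al, module SL3 : even extremal variables in characteristic `p` -/

namespace FV

universe u

variable {k : Type u} [Field k]

lemma SL_pow_mem (M : DGA k) {i j : ℤ} {x : M.A} (hx : x ∈ M.gr i j) (n : ℕ) :
    x ^ n ∈ M.gr (n * i) (n * j) := by
  induction n with
  | zero => simpa using M.one_mem
  | succ n ih =>
    rw [pow_succ]
    have := M.mul_mem ih hx
    have e1 : (n : ℤ) * i + i = ((n + 1 : ℕ) : ℤ) * i := by push_cast; ring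
    have e2 : (n : ℤ) * j + j = ((n + 1 : ℕ) : ℤ) * j := by push_cast; ring
    rwa [e1, e2] at this

lemma SL_d_pow (M : DGA k) {i j : ℤ} {x : M.A} (hx : x ∈ M.gr i j) (hi : Even i) (n : ℕ) :
    M.d (x ^ (n + 1)) = (n + 1 : ℕ) • (x ^ n * M.d x) := by
  induction n with
  | zero => simp
  | succ n ih =>
    have hε : M.ε (x ^ (n + 1)) = x ^ (n + 1) := by
      rw [map_pow, M.ε_gr hx, sg_even hi, one_smul]
    have hcomm : M.d x * x = x * M.d x := M.comm_even hx hi (M.d x)
    rw [pow_succ x (n + 1), M.d_mul, ih, hε, smul_mul_assoc, mul_assoc, hcomm, ← mul_assoc,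
      ← pow_succ, succ_nsmul _ (n + 1)]

section Ring

variable {R : Type u} [CommRing R] [Algebra k R] {𝒜 : ℕ → Submodule k R} [GradedAlgebra 𝒜]

/-- characteristic `p`: an even extremal variable forces an odd extremal one -/
theorem even_excl (p : ℕ) [Fact p.Prime] [CharP k p] {xs : List R} {J : ℤ} (P : PreModel 𝒜 xs J)
    (hQ : ∀ m, m ≤ J → QuasiAt P.π m)
    (σ : ℝ) (hσ : 1 < σ) (hs : ∀ v ∈ P.vars, (v.2 : ℝ) ≤ σ * (v.1 + 1))
    (v : ℤ × ℤ) (hv : v ∈ P.vars) (heven : Even v.1) (hext : (v.2 : ℝ) = σ * (v.1 + 1))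
    (hp : p * v.2 ≤ J) : (2 * v.1 + 1, 2 * v.2) ∈ P.vars := by
  obtain ⟨hv1, hv2, -⟩ := P.vars_le v hv
  have hpp := (Fact.out : p.Prime)
  rcases P.marks v hv with ⟨L, X, f, κ, v0, hL, hc, hstep, -⟩ | ⟨-, m, hm, hmem⟩
  · exfalso
    obtain ⟨x0, hx0, hfx0⟩ := Chain.surj hc v.1 v.2 v0 hstep.mem
    have hpk : ((p : ℕ) : k) = 0 := CharP.cast_eq_zero k p
    have hpM : ∀ y : P.M.A, p • y = 0 := by
      intro y
      have : p • y = ((p : ℕ) : k) • y := (Nat.cast_smul_eq_nsmul k p y).symm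
      rw [this, hpk, zero_smul]
    have hd : P.M.d (x0 ^ p) = 0 := by
      obtain ⟨q, rfl⟩ : ∃ q, p = q + 1 := ⟨p - 1, by have := hpp.pos; omega⟩
      rw [SL_d_pow P.M hx0 heven, hpM]
    have hpi : P.π.f x0 = 0 := by
      have h1 : P.π.f x0 ∈ (ofRing 𝒜).gr v.1 v.2 := P.π.f_mem hx0
      have h2 : (ofRing 𝒜).gr v.1 v.2 = ⊥ := if_neg (by omega)
      rw [h2] at h1
      exact (Submodule.mem_bot k).mp h1
    have hRC : RC P.π (p * v.1) (p * v.2) (x0 ^ p) := by
      refine ⟨SL_pow_mem P.M hx0 p, hd, ?_⟩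
      rw [map_pow, hpi, zero_pow hpp.ne_zero]
    obtain ⟨y, hy, hdy⟩ := (hQ _ hp).exact _ _ hRC
    have hfy : f.f y = 0 := by
      by_contra hne
      obtain ⟨t, ht1, ht2, -⟩ := step_pieces (by omega) (by omega) hstep _ _ _ (f.f_mem hy) hne
      have h3 : (t : ℤ) = p := by
        have : ((t : ℤ) - p) * v.2 = 0 := by linarith
        rcases mul_eq_zero.mp this with h | h <;> omega
      rw [h3] at ht1
      omega
    have hv0 : v0 ^ p = 0 := by
      rw [← hfx0, ← map_pow, ← hdy, f.f_d, hfy, map_zero]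
    have hz : ∀ n : ℕ, v0 ^ n = 0 → (1 : X.A) = 0 := by
      intro n
      induction n with
      | zero => intro h; simpa using h
      | succ n ih =>
        intro h
        rw [pow_succ'] at h
        exact ih (hstep.even heven _ h)
    have h1 := hz p hv0
    have h2 : κ.f 1 = 0 := by rw [h1, map_zero]
    rw [map_one] at h2
    exact one_ne_zero (α := k) h2
  · have h1 := hs _ hmem
    simp only at h1
    push_cast at h1
    rw [hext] at h1
    have h2 : (m : ℝ) ≤ 2 := by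
      by_contra h
      push Not at h
      nlinarith
    have h3 : m ≤ 2 := by exact_mod_cast h2
    have h4 : m = 2 := le_antisymm h3 hm
    rw [h4] at hmem
    exact hmem

end Ring

end FV
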